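import Pool.Agent.H223.CE.Man3

set_option autoImplicit false

open scoped Manifold ContDiff Topology
open Set Filter

namespace Pool.Agent.Results.MP_0a0487_an.FewFixedPointsCovered

open Pool.Agent.H721R2 Pool.Agent.H789R2.AN Pool.Agent.H223.CE

/-- **Universal covers of manifolds with an Anosov diffeomorphism that is hyperbolic on the
fundamental group at large scale.**
Let `f` be a `C¹` Anosov diffeomorphism of a closed connected manifold `M`.  Let `P : X → M` be a
connected Galois covering with deck group `Γ` (for instance the universal covering), with a proper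
metric on `X` that is invariant under `Γ` (for instance the lifted Riemannian distance), and let
`F` be a lift of `f` to `X`.  Suppose that
* `F` is coarsely hyperbolic: for some `N ≥ 1` and `R`,
  `max (d(Fᴺx, Fᴺy), d(F⁻ᴺx, F⁻ᴺy)) ≥ 2 d(x, y)` if `d(x, y) ≥ R` (for the universal covering this
  only depends on `f_*`, and says that `f_*` is a hyperbolic automorphism of the fundamental group
  in the large-scale sense of Bestvina and Feighn); or, more generally, `F` is coarsely dominated:
  for some `n ≥ 1`, `0 ≤ κs < κu` and `C`, `d(Fⁿx, Fⁿy) ≥ κu d(x, y) - C` for `x`, `y` on the same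
  unstable leaf of `X` and `d(Fⁿx, Fⁿy) ≤ κs d(x, y) + C` for `x`, `y` on the same stable leaf;
* for each lift `φ = γ⁻¹Fⁿ` of each iterate `fⁿ`, `n ≥ 1`, to `X` there is a `K ≥ 1` such that `φᴷ`
  has fewer than `2ᴷ` fixed points (for instance each `φ` has at most one fixed point, i.e. in the
  case of the universal covering, fixed points of `fⁿ` in the same Nielsen class are equal).

Then `M` is covered by Euclidean space of dimension `dim M`.  Nothing is assumed on the fundamental
group, on the dimensions of the foliations or on transitivity.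

(So if an Anosov diffeomorphism of a manifold that is not covered by Euclidean space is coarsely
hyperbolic on a covering, then some lift `φ` of some iterate satisfies `#Fix(φᴷ) ≥ 2ᴷ` for all
`K ≥ 1`.) -/
theorem result (E : Type*) [NormedAddCommGroup E] [NormedSpace ℝ E] [FiniteDimensional ℝ E]
    (M : Type*) [TopologicalSpace M] [T2Space M] [CompactSpace M] [ConnectedSpace M]
    [ChartedSpace E M] [IsManifold 𝓘(ℝ, E) ∞ M] (f : Diffeomorph 𝓘(ℝ, E) 𝓘(ℝ, E) M M 1)
    (Es Eu : ∀ x : M, Submodule ℝ (TangentSpace 𝓘(ℝ, E) x)) (hA : IsAnosov f Es Eu)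
    (X : Type*) [MetricSpace X] [ProperSpace X] [ConnectedSpace X]
    (Γ : Type*) [Group Γ] [MulAction Γ X] [IsIsometricSMul Γ X]
    (P : X → M) (hP : IsCoveringMap P) (hsurj : Function.Surjective P)
    (hΓ : ∀ x y : X, P x = P y ↔ ∃ γ : Γ, γ • x = y)
    (F : X ≃ₜ X) (hF : ∀ x, P (F x) = f (P x))
    (hexp : CoarselyHyperbolic F ∨ CoarselyDominated F)
    (hfew : ∀ n : ℕ, 1 ≤ n → ∀ γ : Γ, ∃ K : ℕ, 1 ≤ K ∧
      {x : X | (fun x => γ⁻¹ • F^[n] x)^[K] x = x}.encard < 2 ^ K) :
    ∃ π : E → M, IsCoveringMap π ∧ Function.Surjective π :=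
  man_covered f Es Eu hA P hP hsurj hΓ F hF hexp hfew

end Pool.Agent.Results.MP_0a0487_an.FewFixedPointsCovered
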